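import Pool.Agent.Helper89.SP.Defs
import Pool.Agent.Helper89.FA.ProbAbs
import Pool.Agent.Helper95.SP.Far
import Pool.Agent.Helper96.Slab.Deriv

/-!
Project SP, module SP-01: the bridge between lists and vectors.
-/

set_option autoImplicit false

open MeasureTheory Set Real Slab
open Pool.Agent.Helper88.Slab (prob)

namespace Pool.Agent.Helper89.SP

theorem two_AL_le (n : ℕ) (a : Fin n → ℝ) {t : ℝ} (ht : 0 ≤ t) :
    2 * AL (List.ofFn a) H t ≤ 2 ^ n := by
  have hV : volume (Neg.neg ⁻¹' (Slab.Vol.K n a t)) = volume (Slab.Vol.K n a t) :=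
    (Measure.measurePreserving_neg (volume : Measure (Fin n → ℝ))).measure_preimage
      (Slab.Vol.K_meas n a t).nullMeasurableSet
  have hd : Disjoint (Slab.Vol.K n a t) (Neg.neg ⁻¹' (Slab.Vol.K n a t)) := by
    rw [Set.disjoint_left]
    rintro x ⟨_, h1⟩ ⟨_, h2⟩
    have e : ∑ i, a i * (-x) i = -∑ i, a i * x i := by
      simp [Finset.sum_neg_distrib]
    rw [e] at h2
    linarith
  have hU : volume (Slab.Vol.K n a t ∪ Neg.neg ⁻¹' (Slab.Vol.K n a t)) ≤ volume (Slab.Vol.C n) := by
    refine measure_mono ?_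
    rintro x (⟨h, _⟩ | ⟨h, _⟩)
    · exact h
    · intro i
      have := h i
      simpa using this
  rw [measure_union hd ((Slab.Vol.K_meas n a t).preimage measurable_neg), hV, Slab.Vol.C_vol] at hU
  have h3 := ENNReal.toReal_mono ENNReal.ofReal_ne_top hU
  rw [ENNReal.toReal_add (Slab.Vol.K_lt_top n a t).ne (Slab.Vol.K_lt_top n a t).ne,
    ENNReal.toReal_ofReal (by positivity), Slab.Vol.K_eq] at h3
  linarith

theorem T_ofFn {n : ℕ} (a : Fin n → ℝ) {t : ℝ} (ht : 0 ≤ t) :
    T (List.ofFn a) t = 1 - prob a t := by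
  have h1 := volume_slab n a t ht
  rw [Pool.Agent.Helper88.Slab.volume_slab_pi] at h1
  have h2 := congrArg ENNReal.toReal h1
  rw [ENNReal.toReal_mul, ENNReal.toReal_ofReal (Pool.Agent.Helper89.FA.prob_nonneg a t),
    ENNReal.toReal_ofReal (by linarith [two_AL_le n a ht])] at h2
  have h3 : ((2 : ENNReal) ^ n).toReal = 2 ^ n := by
    rw [ENNReal.toReal_pow]
    norm_num
  rw [h3] at h2
  unfold T
  rw [List.length_ofFn]
  have h4 : (0 : ℝ) < 2 ^ n := by positivity
  rw [div_eq_iff h4.ne']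
  linarith

theorem T_perm {L L' : List ℝ} (h : L.Perm L') (t : ℝ) : T L t = T L' t := by
  unfold T
  rw [AL_perm h, h.length_eq]

theorem AL_zeros (k : ℕ) (t : ℝ) : AL (List.replicate k 0) H t = 2 ^ k * H t := by
  induction k generalizing t with
  | zero => simp [AL_nil]
  | succ k ih =>
    rw [List.replicate_succ, AL_cons, Deriv.A_zero, ih]
    ring

theorem T_append_zeros (L : List ℝ) (k : ℕ) (t : ℝ) :
    T (L ++ List.replicate k 0) t = T L t := by
  unfold T
  rw [AL_append]
  have e : AL (List.replicate k 0) H = fun s => 2 ^ k * H s := by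
    funext s
    exact AL_zeros k s
  rw [e, Pool.Agent.Helper95.SP.AL_const_mul, List.length_append, List.length_replicate, pow_add]
  have h1 : (2 : ℝ) ^ L.length ≠ 0 := by positivity
  have h2 : (2 : ℝ) ^ k ≠ 0 := by positivity
  field_simp

/-- lists as vectors: every list is `ofFn` of a vector with the same data -/
theorem exists_vec (L : List ℝ) : ∃ a : Fin L.length → ℝ, List.ofFn a = L ∧
    ∑ i, a i ^ 2 = sq L := by
  refine ⟨L.get, List.ofFn_get L, ?_⟩
  unfold sq
  conv_rhs => rw [← List.ofFn_get L]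
  rw [List.map_ofFn, List.sum_ofFn]
  rfl

end Pool.Agent.Helper89.SP
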